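import Pool.Agent.W120.WM.Defs2

/-! Project WM2 (helper120), part LINK. -/

set_option autoImplicit false

namespace Pool.Agent.W237.WM

open Pool.Agent.W120.WM Complex Filter Topology
open Pool.Agent.H24R2.JP (XX)

/-- the factor of zeta -/
noncomputable def Af (z : ℂ) : ℂ := 4 * (1 / 2 + z) * (z - 1 / 2) * Gammaℝ (1 / 2 + z)

theorem XX_eq {z : ℂ} (hz : 0 < (1 / 2 + z).re) (h1 : z ≠ 1 / 2) :
    XX z = Af z * riemannZeta (1 / 2 + z) := by
  have hs0 : (1 / 2 + z : ℂ) ≠ 0 := by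
    intro h
    rw [h] at hz
    simp at hz
  have hs1 : (1 - (1 / 2 + z) : ℂ) ≠ 0 := by
    intro h
    apply h1
    linear_combination -h
  have hG : Gammaℝ (1 / 2 + z) ≠ 0 := Gammaℝ_ne_zero_of_re_pos hz
  unfold XX Af
  rw [riemannZeta_def_of_ne_zero hs0, completedRiemannZeta_eq]
  have e1 : ∀ (A G L : ℂ), G ≠ 0 → A * G * (L / G) = A * L := by
    intro A G L hG'
    field_simp
  rw [e1 _ _ _ hG]
  have e2 : (1 / (1 / 2 + z) + 1 / (1 - (1 / 2 + z)) : ℂ) * (4 * z ^ 2 - 1) = -4 := by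
    generalize hs : (1 / 2 + z : ℂ) = s at *
    have hz' : z = s - 1 / 2 := by rw [← hs]; ring
    rw [hz']
    field_simp
    ring
  linear_combination e2

theorem Af_norm (δ t : ℝ) : ‖Af (⟨δ, t⟩ : ℂ)‖ = 4 * ‖(⟨1 / 2 + δ, t⟩ : ℂ)‖ * Wg δ t := by
  have e1 : (1 / 2 + (⟨δ, t⟩ : ℂ)) = (⟨1 / 2 + δ, t⟩ : ℂ) := by
    apply Complex.ext <;> simp
  have e2 : ((⟨δ, t⟩ : ℂ) - 1 / 2) = (⟨δ - 1 / 2, t⟩ : ℂ) := by
    apply Complex.ext <;> simp
  unfold Af Wg
  rw [e1, e2]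
  simp only [norm_mul]
  have e3 : ‖(4 : ℂ)‖ = 4 := by simp
  rw [e3]
  ring

theorem sh (δ t : ℝ) : (1 / 2 + (⟨δ, t⟩ : ℂ)) = (⟨1 / 2 + δ, t⟩ : ℂ) := by
  apply Complex.ext <;> simp

theorem sh0 (t : ℝ) : (1 / 2 + (⟨0, t⟩ : ℂ)) = (⟨1 / 2, t⟩ : ℂ) := by
  apply Complex.ext <;> simp

theorem ne_half (δ t : ℝ) (h : δ < 1 / 2) : (⟨δ, t⟩ : ℂ) ≠ 1 / 2 := by
  intro h1
  have h2 := congrArg Complex.re h1
  simp at h2
  rw [h2] at h
  norm_num at h

theorem an_Gammaℝ {s : ℂ} (hs : 0 < s.re) : AnalyticAt ℂ Gammaℝ s := by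
  have h1 : AnalyticAt ℂ (fun z => ((Gammaℝ z)⁻¹)⁻¹) s :=
    (differentiable_Gammaℝ_inv.analyticAt s).fun_inv (inv_ne_zero (Gammaℝ_ne_zero_of_re_pos hs))
  simpa using h1

theorem link : U_LINK := by
  refine ⟨?_, ?_, ?_⟩
  · intro y
    have hre : 0 < (1 / 2 + (⟨0, y⟩ : ℂ)).re := by simp
    have hne := ne_half 0 y (by norm_num)
    rw [XX_eq hre hne, mul_eq_zero, sh0]
    constructor
    · rintro (h | h)
      · exfalso
        unfold Af at h
        have hs0 : (1 / 2 + (⟨0, y⟩ : ℂ)) ≠ 0 := by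
          intro h'
          rw [h'] at hre
          simp at hre
        have h2 : (⟨0, y⟩ : ℂ) - 1 / 2 ≠ 0 := sub_ne_zero.2 hne
        have h3 : Gammaℝ (1 / 2 + (⟨0, y⟩ : ℂ)) ≠ 0 := Gammaℝ_ne_zero_of_re_pos hre
        exact (mul_ne_zero (mul_ne_zero (mul_ne_zero (by norm_num) hs0) h2) h3) h
      · exact h
    · exact fun h => Or.inr h
  · intro δ t h0 h1
    have hre : 0 < (1 / 2 + (⟨δ, t⟩ : ℂ)).re := by
      rw [sh]
      show 0 < 1 / 2 + δ
      linarith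
    rw [XX_eq hre (ne_half δ t h1), norm_mul, Af_norm, sh]
  · intro y hy
    set z0 : ℂ := ⟨0, y⟩ with hz0
    have hre : 0 < (1 / 2 + z0).re := by rw [hz0]; simp
    have hne : z0 ≠ 1 / 2 := ne_half 0 y (by norm_num)
    have hev : XX =ᶠ[𝓝 z0] fun z => Af z * riemannZeta (1 / 2 + z) := by
      have c1 : ∀ᶠ z in 𝓝 z0, 0 < (1 / 2 + z).re := by
        have : ContinuousAt (fun z : ℂ => (1 / 2 + z).re) z0 := by fun_prop
        exact this.eventually (lt_mem_nhds hre)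
      filter_upwards [c1, isOpen_ne.mem_nhds hne] with z h1 h2
      exact XX_eq h1 h2
    have hs1 : (1 / 2 + z0) ≠ 1 := by
      intro h
      apply hne
      linear_combination h
    have hA : DifferentiableAt ℂ Af z0 := by
      unfold Af
      have hG : DifferentiableAt ℂ (fun z : ℂ => Gammaℝ (1 / 2 + z)) z0 :=
        (an_Gammaℝ hre).differentiableAt.comp z0 (by fun_prop)
      fun_prop
    have hZ : HasDerivAt (fun z : ℂ => riemannZeta (1 / 2 + z)) (deriv riemannZeta (1 / 2 + z0)) z0 := by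
      have h1 := (differentiableAt_riemannZeta hs1).hasDerivAt
      exact h1.comp_const_add (1 / 2) z0
    have hd := hA.hasDerivAt.mul hZ
    have hy' : riemannZeta (1 / 2 + z0) = 0 := by
      rw [hz0, sh0]
      exact hy
    rw [hev.deriv_eq]
    have e : deriv (fun z => Af z * riemannZeta (1 / 2 + z)) z0 =
        Af z0 * deriv riemannZeta (1 / 2 + z0) := by
      have h2 := hd.deriv
      rw [hy', mul_zero, zero_add] at h2
      exact h2
    rw [e, norm_mul, hz0, Af_norm, sh0, add_zero]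

end Pool.Agent.W237.WM
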